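import Pool.Agent.H624R3.CP.Stmts

set_option autoImplicit false

/-! COVPROD (MP_c83c77_co): task STEP, part B (counting affinely independent tuples) -/

namespace Pool.Agent.H466R3.CPStep

open Pool.Agent.H624R3.CP

open Classical in
/-- affinely independent tuples from `T` -/
noncomputable def tup {d : ℕ} (T : Finset (E d)) (j : ℕ) : Finset (Fin j → E d) :=
  (Fintype.piFinset (fun _ : Fin j => T)).filter (fun f => AffineIndependent ℝ f)

theorem mem_tup {d : ℕ} {T : Finset (E d)} {j : ℕ} {f : Fin j → E d} :
    f ∈ tup T j ↔ (∀ l, f l ∈ T) ∧ AffineIndependent ℝ f := by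
  classical
  simp [tup]

theorem cons_indep {d j : ℕ} {f : Fin j → E d} (hf : AffineIndependent ℝ f) {x : E d}
    (hx : x ∉ affineSpan ℝ (Set.range f)) : AffineIndependent ℝ (Fin.cons x f : Fin (j + 1) → E d) := by
  refine AffineIndependent.affineIndependent_of_notMem_span (i := 0) ?_ ?_
  · rw [← affineIndependent_equiv (finSuccAboveEquiv (0 : Fin (j + 1)))]
    have h1 : (fun i : {y : Fin (j + 1) // y ≠ 0} => (Fin.cons x f : Fin (j + 1) → E d) i) ∘
        (finSuccAboveEquiv (0 : Fin (j + 1))) = f := by
      funext l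
      have h2 : ((finSuccAboveEquiv (0 : Fin (j + 1))) l : Fin (j + 1)) = l.succ := by
        change Fin.succAbove 0 l = l.succ
        rw [Fin.succAbove_zero]
      simp only [Function.comp]
      rw [h2, Fin.cons_succ]
    rw [h1]
    exact hf
  · rw [Fin.cons_zero]
    have h1 : (Fin.cons x f : Fin (j + 1) → E d) '' {i | i ≠ 0} ⊆ Set.range f := by
      rintro _ ⟨i, hi, rfl⟩
      obtain ⟨l, rfl⟩ := Fin.exists_succ_eq.2 hi
      exact ⟨l, by simp⟩
    exact fun h => hx (affineSpan_mono ℝ h1 h)

theorem finrank_span_le {d j : ℕ} (f : Fin j → E d) :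
    Module.finrank ℝ (affineSpan ℝ (Set.range f)).direction ≤ j - 1 := by
  rcases j with _ | j
  · have : Set.range f = ∅ := Set.range_eq_empty f
    rw [this]
    simp
  · rw [direction_affineSpan]
    exact finrank_vectorSpan_range_le ℝ f (by simp)

theorem card_tup {d k b : ℕ} (T : Finset (E d))
    (hb : ∀ F' : AffineSubspace ℝ (E d), Module.finrank ℝ F'.direction ≤ k →
      ∀ T' : Finset (E d), T' ⊆ T → (∀ x ∈ T', x ∈ F') → T'.card ≤ b) :
    ∀ j : ℕ, j ≤ k + 1 → (T.card - b) ^ j ≤ (tup T j).card := by
  classical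
  intro j
  induction j with
  | zero =>
    intro _
    rw [pow_zero]
    apply Finset.card_pos.2
    refine ⟨Fin.elim0, mem_tup.2 ⟨fun l => l.elim0, ?_⟩⟩
    exact affineIndependent_of_subsingleton ℝ _
  | succ j ih =>
    intro hj
    have h1 := ih (by omega)
    have h2 : ∀ f ∈ tup T j,
        T.card - b ≤ (T.filter (fun x => x ∉ affineSpan ℝ (Set.range f))).card := by
      intro f _
      have h3 := hb (affineSpan ℝ (Set.range f)) ((finrank_span_le f).trans (by omega))
        (T.filter (fun x => x ∈ affineSpan ℝ (Set.range f))) (Finset.filter_subset _ _)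
        (fun x hx => (Finset.mem_filter.1 hx).2)
      have h4 := Finset.card_filter_add_card_filter_not
        (s := T) (p := fun x => x ∈ affineSpan ℝ (Set.range f))
      omega
    have h5 : ((tup T j).sigma
        (fun f => T.filter (fun x => x ∉ affineSpan ℝ (Set.range f)))).card ≤
        (tup T (j + 1)).card := by
      refine Finset.card_le_card_of_injOn
        (fun p => (Fin.cons p.2 p.1 : Fin (j + 1) → E d)) ?_ ?_
      · rintro ⟨f, x⟩ hp
        simp only [Finset.coe_sigma, Set.mem_sigma_iff, Finset.mem_coe, Finset.mem_filter] at hp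
        obtain ⟨hf, hxT, hx⟩ := hp
        rw [mem_tup] at hf
        rw [Finset.mem_coe, mem_tup]
        refine ⟨fun l => ?_, cons_indep hf.2 hx⟩
        refine Fin.cases ?_ (fun l => ?_) l
        · simpa using hxT
        · simpa using hf.1 l
      · rintro ⟨f, x⟩ _ ⟨g, y⟩ _ h
        simp only at h
        obtain ⟨h1, h2⟩ := Fin.cons_injective2 h
        subst h1 h2
        rfl
    rw [Finset.card_sigma] at h5
    calc (T.card - b) ^ (j + 1) = (T.card - b) ^ j * (T.card - b) := pow_succ _ _
      _ ≤ (tup T j).card * (T.card - b) := Nat.mul_le_mul_right _ h1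
      _ = ∑ _f ∈ tup T j, (T.card - b) := by rw [Finset.sum_const, smul_eq_mul]
      _ ≤ _ := Finset.sum_le_sum h2
      _ ≤ _ := h5

end Pool.Agent.H466R3.CPStep
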