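import Mathlib

set_option autoImplicit false

/-! COVPROD (MP_c83c77_co): task STEP, part C (numerics) -/

namespace Pool.Agent.H466R3.CPStep

open Real

/-- `(n+1)! e^n ≤ (n+1)^(n+2)` -/
theorem fact_le (n : ℕ) : ((n + 1).factorial : ℝ) * exp 1 ^ n ≤ ((n : ℝ) + 1) ^ (n + 2) := by
  induction n with
  | zero => norm_num
  | succ n ih =>
    have hn : (0 : ℝ) < (n : ℝ) + 1 := by positivity
    have h1 : exp 1 ≤ ((((n : ℝ) + 1) + 1) / ((n : ℝ) + 1)) ^ (n + 2) := by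
      have h2 : (1 : ℝ) / ((n : ℝ) + 2) ≤ log ((((n : ℝ) + 1) + 1) / ((n : ℝ) + 1)) := by
        have h3 := Real.one_sub_inv_le_log_of_pos
          (show (0 : ℝ) < (((n : ℝ) + 1) + 1) / ((n : ℝ) + 1) by positivity)
        refine le_trans (le_of_eq ?_) h3
        field_simp
        ring
      have h4 : (((((n : ℝ) + 1) + 1) / ((n : ℝ) + 1))) =
          exp (log ((((n : ℝ) + 1) + 1) / ((n : ℝ) + 1))) :=
        (exp_log (by positivity)).symm
      rw [h4, ← exp_nat_mul]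
      apply exp_le_exp.2
      calc (1 : ℝ) = ((n + 2 : ℕ) : ℝ) * (1 / ((n : ℝ) + 2)) := by
            push_cast
            field_simp
        _ ≤ _ := mul_le_mul_of_nonneg_left h2 (by positivity)
    rw [Nat.factorial_succ]
    push_cast
    have h5 : ((n : ℝ) + 1) ^ (n + 2) * ((((n : ℝ) + 1) + 1) / ((n : ℝ) + 1)) ^ (n + 2) =
        (((n : ℝ) + 1) + 1) ^ (n + 2) := by
      rw [← mul_pow]
      congr 1
      field_simp
    calc ((n : ℝ) + 1 + 1) * ((n + 1).factorial : ℝ) * exp 1 ^ (n + 1)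
        = ((n : ℝ) + 1 + 1) * (((n + 1).factorial : ℝ) * exp 1 ^ n) * exp 1 := by ring
      _ ≤ ((n : ℝ) + 1 + 1) * (((n : ℝ) + 1) ^ (n + 2)) * exp 1 := by gcongr
      _ ≤ ((n : ℝ) + 1 + 1) * (((n : ℝ) + 1) ^ (n + 2)) *
          ((((n : ℝ) + 1) + 1) / ((n : ℝ) + 1)) ^ (n + 2) := by gcongr
      _ = ((n : ℝ) + 1 + 1) * ((((n : ℝ) + 1) ^ (n + 2)) *
          ((((n : ℝ) + 1) + 1) / ((n : ℝ) + 1)) ^ (n + 2)) := by ring
      _ = ((n : ℝ) + 1 + 1) ^ (n + 1 + 2) := by rw [h5]; ring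

theorem pow199 : (400 : ℝ) ≤ (21 / 20) ^ 199 := by norm_num

theorem exp_two_le : exp 2 ≤ 8 := by
  have h := Real.exp_one_lt_d9
  have h2 : exp 2 = exp 1 * exp 1 := by rw [← exp_add]; norm_num
  rw [h2]
  nlinarith [exp_pos 1]

/-- the final contradiction -/
theorem num_final : ∃ m0 : ℕ, 400 ≤ m0 ∧ ∀ m ≥ m0, ∀ k : ℕ, k = m - (m / 200 + 1) →
    ((k + 1).factorial : ℝ) * 200 ^ (m + 1) <
      (3 / 4) * 199 ^ (k + 1) * (m : ℝ) ^ k * (21 / 20) ^ k / exp 1 ^ k := by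
  -- eventually `2^r` beats `C (r+1)^2`
  obtain ⟨r0, hr0⟩ : ∃ r0 : ℕ, ∀ r ≥ r0, (10 ^ 9 : ℝ) * ((r : ℝ) + 1) ^ 2 < 2 ^ r := by
    have h1 : Filter.Tendsto (fun r : ℕ => ((r : ℝ)) ^ 2 / 2 ^ r) Filter.atTop (nhds 0) :=
      tendsto_pow_const_div_const_pow_of_one_lt 2 (by norm_num)
    have h2 := (h1.eventually (gt_mem_nhds (show (0 : ℝ) < 1 / (4 * 10 ^ 9) by norm_num)))
    obtain ⟨r1, hr1⟩ := Filter.eventually_atTop.1 h2
    refine ⟨max r1 1, fun r hr => ?_⟩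
    have h3 := hr1 r (le_trans (le_max_left _ _) hr)
    have h4 : (1 : ℝ) ≤ r := by exact_mod_cast le_trans (le_max_right _ _) hr
    rw [div_lt_div_iff₀ (by positivity) (by norm_num)] at h3
    have h5 : ((r : ℝ) + 1) ^ 2 ≤ 4 * (r : ℝ) ^ 2 := by nlinarith
    nlinarith
  refine ⟨200 * (r0 + 2), by omega, ?_⟩
  intro m hm k hk
  set r := m / 200 with hr
  have hrr0 : r0 + 2 ≤ r := by omega
  have hm1 : 200 * r ≤ m := by omega
  have hm2 : m < 200 * (r + 1) := by omega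
  have hk1 : k + 1 = m - r := by omega
  have hk2 : 199 * r ≤ k + 1 := by omega
  have hk3 : k + r + 1 = m := by omega
  have hmpos : (0 : ℝ) < m := by
    have : 0 < m := by omega
    exact_mod_cast this
  have hE : (0 : ℝ) < exp 1 := exp_pos 1
  have hf := fact_le k
  rw [lt_div_iff₀ (by positivity)]
  -- it suffices to bound `(k+1)^(k+2) 200^(m+1)`
  have h1 : ((k + 1).factorial : ℝ) * 200 ^ (m + 1) * exp 1 ^ k ≤
      ((k : ℝ) + 1) ^ (k + 2) * 200 ^ (m + 1) := by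
    calc ((k + 1).factorial : ℝ) * 200 ^ (m + 1) * exp 1 ^ k =
        (((k + 1).factorial : ℝ) * exp 1 ^ k) * 200 ^ (m + 1) := by ring
      _ ≤ _ := by gcongr
  refine lt_of_le_of_lt h1 ?_
  -- `(k+1)/m * 200/199 ≤ 1 + 2/m`
  have h2 : ((k : ℝ) + 1) * 200 ≤ 199 * (m + 2) := by
    have : (k + 1) * 200 ≤ 199 * (m + 2) := by omega
    exact_mod_cast this
  have h3 : (((k : ℝ) + 1) * 200) ^ k ≤ 8 * (199 * (m : ℝ)) ^ k := by
    have h4 : ((k : ℝ) + 1) * 200 ≤ 199 * m * exp (2 / m) := by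
      have h5 := Real.add_one_le_exp (2 / (m : ℝ))
      calc ((k : ℝ) + 1) * 200 ≤ 199 * (m + 2) := h2
        _ = 199 * m * (2 / m + 1) := by field_simp; ring
        _ ≤ _ := by gcongr
    calc (((k : ℝ) + 1) * 200) ^ k ≤ (199 * m * exp (2 / m)) ^ k := by gcongr
      _ = (199 * (m : ℝ)) ^ k * exp (k * (2 / m)) := by rw [mul_pow, ← exp_nat_mul]
      _ ≤ (199 * (m : ℝ)) ^ k * 8 := by
          gcongr
          refine le_trans (exp_le_exp.2 ?_) exp_two_le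
          rw [mul_div_assoc', div_le_iff₀ hmpos]
          have : (k : ℝ) ≤ m := by
            have : k ≤ m := by omega
            exact_mod_cast this
          linarith
      _ = _ := by ring
  have h6 : ((k : ℝ) + 1) ^ (k + 2) * 200 ^ (m + 1) =
      (((k : ℝ) + 1) * 200) ^ k * (((k : ℝ) + 1) ^ 2 * 200 ^ (r + 2)) := by
    rw [← hk3, mul_pow]
    ring
  rw [h6]
  have h7 : (3 / 4 : ℝ) * 199 ^ (k + 1) * (m : ℝ) ^ k * (21 / 20) ^ k =
      (199 * (m : ℝ)) ^ k * ((3 / 4) * 199 * (21 / 20) ^ k) := by ring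
  rw [h7]
  have hpos : (0 : ℝ) < (199 * (m : ℝ)) ^ k := by positivity
  -- main comparison
  have h8 : 8 * (((k : ℝ) + 1) ^ 2 * 200 ^ (r + 2)) < (3 / 4) * 199 * (21 / 20) ^ k := by
    have h9 : (400 : ℝ) ^ r ≤ (21 / 20) ^ (k + 1) := by
      calc (400 : ℝ) ^ r ≤ ((21 / 20) ^ 199) ^ r := by
            gcongr
            exact pow199
        _ = (21 / 20) ^ (199 * r) := by rw [← pow_mul]
        _ ≤ _ := pow_le_pow_right₀ (by norm_num) hk2
    have h10 : ((k : ℝ) + 1) ≤ 200 * ((r : ℝ) + 1) := by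
      have : k + 1 ≤ 200 * (r + 1) := by omega
      exact_mod_cast this
    have h11 := hr0 r (by omega)
    have h12 : (400 : ℝ) ^ r = 2 ^ r * 200 ^ r := by
      rw [← mul_pow]; norm_num
    have h13 : ((k : ℝ) + 1) ^ 2 ≤ (200 * ((r : ℝ) + 1)) ^ 2 := by gcongr
    have h14 : (0 : ℝ) < 200 ^ r := by positivity
    have h15 : (21 / 20 : ℝ) ^ (k + 1) = (21 / 20) ^ k * (21 / 20) := pow_succ _ _
    calc 8 * (((k : ℝ) + 1) ^ 2 * 200 ^ (r + 2))
        ≤ 8 * ((200 * ((r : ℝ) + 1)) ^ 2 * 200 ^ (r + 2)) := by gcongr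
      _ = (8 * 200 ^ 4 * ((r : ℝ) + 1) ^ 2) * 200 ^ r := by ring
      _ < (100 * 2 ^ r) * 200 ^ r := by
          apply mul_lt_mul_of_pos_right _ h14
          nlinarith
      _ = 100 * 400 ^ r := by rw [h12]; ring
      _ ≤ 100 * (21 / 20) ^ (k + 1) := by gcongr
      _ ≤ (3 / 4) * 199 * (21 / 20) ^ k := by
          rw [h15]
          have : (0 : ℝ) < (21 / 20) ^ k := by positivity
          nlinarith
  calc (((k : ℝ) + 1) * 200) ^ k * (((k : ℝ) + 1) ^ 2 * 200 ^ (r + 2))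
      ≤ (8 * (199 * (m : ℝ)) ^ k) * (((k : ℝ) + 1) ^ 2 * 200 ^ (r + 2)) := by gcongr
    _ = (199 * (m : ℝ)) ^ k * (8 * (((k : ℝ) + 1) ^ 2 * 200 ^ (r + 2))) := by ring
    _ < _ := mul_lt_mul_of_pos_left h8 hpos

end Pool.Agent.H466R3.CPStep
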