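import Pool.Agent.H466R3.CP_StepA
import Pool.Agent.H466R3.CP_StepB
import Pool.Agent.H466R3.CP_StepC

set_option autoImplicit false

/-! COVPROD (MP_c83c77_co): task STEP -/

namespace Pool.Agent.H466R3.CPStep

open Pool.Agent.H624R3.CP
open Real

theorem taskSTEP : TaskDETI → TaskSTEP := by
  classical
  intro hD
  obtain ⟨m0, hm400, hnum⟩ := num_final
  refine ⟨m0, ?_⟩
  intro m hm d k b T F p ρ κ hk hρ hκ hκρ hF hTF hTp hb hgram
  by_contra hcon
  have hcon' : 4 * m * b < T.card := not_le.1 hcon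
  have hmpos : 0 < m := by omega
  have hmR : (0 : ℝ) < m := by exact_mod_cast hmpos
  have hTpos : 0 < T.card := by omega
  have haR : (0 : ℝ) < T.card := by exact_mod_cast hTpos
  have hkm : k + 1 ≤ m := by omega
  have hba : b ≤ T.card := by
    have : b ≤ 4 * m * b := Nat.le_mul_of_pos_left b (by omega)
    omega
  -- count
  have hcount := card_tup T hb (k + 1) le_rfl
  have hcountR : (3 / 4 : ℝ) * (T.card : ℝ) ^ (k + 1) ≤ ((tup T (k + 1)).card : ℝ) := by
    have h1 : (((T.card - b) ^ (k + 1) : ℕ) : ℝ) ≤ ((tup T (k + 1)).card : ℝ) := by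
      exact_mod_cast hcount
    refine le_trans ?_ h1
    push_cast [Nat.cast_sub hba]
    have h2 : (4 * m * b : ℝ) ≤ T.card := by exact_mod_cast hcon'.le
    have h3 : (T.card : ℝ) * (1 + -(1 / (4 * m))) ≤ (T.card : ℝ) - b := by
      have h4 : (b : ℝ) ≤ T.card * (1 / (4 * m)) := by
        rw [mul_one_div, le_div_iff₀ (by positivity)]
        linarith
      linarith
    have hm1 : (1 : ℝ) / (4 * m) ≤ 1 / 4 := by
      apply one_div_le_one_div_of_le (by norm_num)
      have : (1 : ℝ) ≤ m := by exact_mod_cast hmpos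
      linarith
    have h5 : (0 : ℝ) ≤ (T.card : ℝ) * (1 + -(1 / (4 * m))) := by
      apply mul_nonneg haR.le
      linarith
    have h6 := one_add_mul_le_pow (show (-2 : ℝ) ≤ -(1 / (4 * m)) by linarith) (k + 1)
    have h7 : (3 / 4 : ℝ) ≤ 1 + ((k + 1 : ℕ) : ℝ) * (-(1 / (4 * m))) := by
      have h8 : ((k + 1 : ℕ) : ℝ) ≤ m := by exact_mod_cast hkm
      have h9 : ((k + 1 : ℕ) : ℝ) * (1 / (4 * m)) ≤ 1 / 4 := by
        rw [mul_one_div, div_le_div_iff₀ (by positivity) (by norm_num)]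
        linarith
      linarith
    calc (3 / 4 : ℝ) * (T.card : ℝ) ^ (k + 1)
        ≤ (1 + -(1 / (4 * (m : ℝ)))) ^ (k + 1) * (T.card : ℝ) ^ (k + 1) := by
          gcongr
          exact h7.trans h6
      _ = ((T.card : ℝ) * (1 + -(1 / (4 * (m : ℝ))))) ^ (k + 1) := by
          rw [mul_pow]; ring
      _ ≤ _ := by gcongr
  -- vectors
  set D := F.direction with hDdef
  set s : ℝ := ρ / √m with hs
  have hs2 : s ^ 2 = ρ ^ 2 / m := by
    rw [hs, div_pow, Real.sq_sqrt hmR.le]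
  obtain ⟨U, hU⟩ := exists_aug D hF s
  set y : E d → D := fun x => D.orthogonalProjectionOnto (x - p) with hy
  have hyd : ∀ x ∈ T, ∀ x' ∈ T, ((y x : E d) - (y x' : E d)) = x - x' := by
    intro x hx x' hx'
    have h1 : x - x' ∈ D := by
      have := AffineSubspace.vsub_mem_direction (hTF x hx) (hTF x' hx')
      simpa using this
    have h2 : y x - y x' = D.orthogonalProjectionOnto (x - x') := by
      simp only [hy]
      rw [← map_sub]
      congr 1
      abel
    have h3 : D.orthogonalProjectionOnto (x - x') = ⟨x - x', h1⟩ :=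
      D.orthogonalProjectionOnto_mem_subspace_eq_self ⟨x - x', h1⟩
    rw [h3] at h2
    have h4 := congrArg (fun z : D => (z : E d)) h2
    simpa using h4
  set u : {x // x ∈ T} → E (m + 1) := fun x => U (y x) with hu
  have hunorm : ∀ x, ‖u x‖ ^ 2 ≤ ρ ^ 2 * (m + 1) / m := by
    intro x
    rw [← real_inner_self_eq_norm_sq, hu]
    simp only
    rw [hU, real_inner_self_eq_norm_sq, hs2]
    have h1 : ‖(y x : E d)‖ ≤ ρ := by
      have h2 : ‖(y x : E d)‖ = ‖y x‖ := rfl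
      rw [h2]
      exact (D.norm_orthogonalProjectionOnto_apply_le _).trans (hTp x x.2)
    have h3 : ‖(y x : E d)‖ ^ 2 ≤ ρ ^ 2 := by gcongr
    have h4 : ρ ^ 2 * (m + 1) / m = ρ ^ 2 / m + ρ ^ 2 := by field_simp; ring
    rw [h4]
    linarith
  -- gram of the tuples
  have hgr : ∀ f : Fin (k + 1) ↪ {x // x ∈ T}, AffineIndependent ℝ (fun l => (f l : E d)) →
      ρ ^ 2 / m * κ ^ (2 * k) ≤ gram (fun l => u (f l)) := by
    intro f hf
    have h1 := hgram (fun l => (f l : E d)) (fun l => (f l).2) hf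
    have h2 := det_aug s (fun l => (y (f l) : E d))
    have h3 : gram (fun l => u (f l)) =
        (Matrix.of fun a b : Fin (k + 1) =>
          s ^ 2 + inner ℝ ((y (f a) : E d)) ((y (f b) : E d))).det := by
      unfold gram
      congr 1
      ext a b
      simp only [Matrix.of_apply, hu]
      exact hU _ _
    have h4 : (fun l : Fin k => (y (f l.succ) : E d) - (y (f 0) : E d)) =
        (fun l : Fin k => (f l.succ : E d) - (f 0 : E d)) := by
      funext l
      exact hyd _ (f l.succ).2 _ (f 0).2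
    rw [h3]
    refine le_trans ?_ h2
    rw [h4, hs2]
    gcongr
  -- lower bound of the sum
  have hsum : (3 / 4 : ℝ) * (T.card : ℝ) ^ (k + 1) * (ρ ^ 2 / m * κ ^ (2 * k)) ≤
      ∑ f : (Fin (k + 1) ↪ {x // x ∈ T}), gram (fun l => u (f l)) := by
    set 𝒢 : Finset (Fin (k + 1) ↪ {x // x ∈ T}) :=
      Finset.univ.filter (fun f => AffineIndependent ℝ (fun l => (f l : E d))) with h𝒢
    have h1 : (tup T (k + 1)).card ≤ 𝒢.card := by
      refine Finset.card_le_card_of_surjOn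
        (fun (f : Fin (k + 1) ↪ {x // x ∈ T}) => fun l => (f l : E d)) ?_
      intro w hw
      rw [Finset.mem_coe, mem_tup] at hw
      have hinj : Function.Injective (fun l => (⟨w l, hw.1 l⟩ : {x // x ∈ T})) := by
        intro l l' h
        exact hw.2.injective (Subtype.mk.inj h)
      refine ⟨⟨fun l => ⟨w l, hw.1 l⟩, hinj⟩, ?_, rfl⟩
      rw [Finset.mem_coe, h𝒢, Finset.mem_filter]
      exact ⟨Finset.mem_univ _, hw.2⟩
    have h2 : ∑ f ∈ 𝒢, gram (fun l => u (f l)) ≤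
        ∑ f : (Fin (k + 1) ↪ {x // x ∈ T}), gram (fun l => u (f l)) :=
      Finset.sum_le_sum_of_subset_of_nonneg (Finset.subset_univ _)
        (fun f _ _ => gram_nonneg _)
    refine le_trans ?_ h2
    have h3 : (𝒢.card : ℝ) * (ρ ^ 2 / m * κ ^ (2 * k)) ≤ ∑ f ∈ 𝒢, gram (fun l => u (f l)) := by
      have := Finset.card_nsmul_le_sum 𝒢 (fun f => gram (fun l => u (f l)))
        (ρ ^ 2 / m * κ ^ (2 * k)) (fun f hf => hgr f (by
          rw [h𝒢, Finset.mem_filter] at hf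
          exact hf.2))
      rwa [nsmul_eq_mul] at this
    refine le_trans ?_ h3
    have h4 : (3 / 4 : ℝ) * (T.card : ℝ) ^ (k + 1) ≤ 𝒢.card :=
      hcountR.trans (by exact_mod_cast h1)
    gcongr
  -- apply DETI
  set x : ℝ := 199 * m / (T.card * ρ ^ 2) with hx
  have hxpos : 0 < x := by positivity
  have hdet := hD (m + 1) (k + 1) {x // x ∈ T} inferInstance inferInstance u x (by omega) hxpos
  have hS : x * (∑ i, ‖u i‖ ^ 2) / ((m + 1 : ℕ) : ℝ) ≤ 199 := by
    have h1 : (∑ i, ‖u i‖ ^ 2) ≤ T.card * (ρ ^ 2 * (m + 1) / m) := by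
      calc (∑ i, ‖u i‖ ^ 2) ≤ ∑ _i : {x // x ∈ T}, (ρ ^ 2 * (m + 1) / m) :=
            Finset.sum_le_sum (fun i _ => hunorm i)
        _ = _ := by
            rw [Finset.sum_const, Finset.card_univ, Fintype.card_coe, nsmul_eq_mul]
    push_cast
    rw [div_le_iff₀ (by positivity)]
    calc x * (∑ i, ‖u i‖ ^ 2) ≤ x * (T.card * (ρ ^ 2 * (m + 1) / m)) := by gcongr
      _ = 199 * ((m : ℝ) + 1) := by
          rw [hx]
          field_simp
  have hR : (1 + x * (∑ i, ‖u i‖ ^ 2) / ((m + 1 : ℕ) : ℝ)) ^ (m + 1) ≤ 200 ^ (m + 1) := by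
    apply pow_le_pow_left₀
    · positivity
    · linarith
  have hdet2 : x ^ (k + 1) * ((3 / 4 : ℝ) * (T.card : ℝ) ^ (k + 1) * (ρ ^ 2 / m * κ ^ (2 * k))) ≤
      ((k + 1).factorial : ℝ) * 200 ^ (m + 1) := by
    calc x ^ (k + 1) * ((3 / 4 : ℝ) * (T.card : ℝ) ^ (k + 1) * (ρ ^ 2 / m * κ ^ (2 * k)))
        ≤ x ^ (k + 1) * ∑ f : (Fin (k + 1) ↪ {x // x ∈ T}), gram (fun l => u (f l)) := by
          gcongr
      _ ≤ ((k + 1).factorial : ℝ) *
          (1 + x * (∑ i, ‖u i‖ ^ 2) / ((m + 1 : ℕ) : ℝ)) ^ (m + 1) := by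
          convert hdet using 2
      _ ≤ _ := by gcongr
  have hfin := hnum m hm k hk
  have hkey : (3 / 4 : ℝ) * 199 ^ (k + 1) * (m : ℝ) ^ k * (21 / 20) ^ k / exp 1 ^ k ≤
      x ^ (k + 1) * ((3 / 4 : ℝ) * (T.card : ℝ) ^ (k + 1) * (ρ ^ 2 / m * κ ^ (2 * k))) := by
    have h1 : (21 / 20 : ℝ) ^ k / exp 1 ^ k ≤ κ ^ (2 * k) / ρ ^ (2 * k) := by
      rw [← div_pow, pow_mul, pow_mul, ← div_pow]
      apply pow_le_pow_left₀ (by positivity)
      rw [div_le_div_iff₀ (exp_pos 1) (by positivity)]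
      linarith
    have h2 : x ^ (k + 1) * ((3 / 4 : ℝ) * (T.card : ℝ) ^ (k + 1) * (ρ ^ 2 / m * κ ^ (2 * k))) =
        (3 / 4 : ℝ) * 199 ^ (k + 1) * (m : ℝ) ^ k * (κ ^ (2 * k) / ρ ^ (2 * k)) := by
      rw [hx, div_pow, mul_pow, mul_pow, pow_mul ρ 2 k]
      field_simp
      ring
    rw [h2, mul_div_assoc]
    gcongr
  linarith

end Pool.Agent.H466R3.CPStep
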