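import Pool.Agent.H624R3.CP.Stmts

set_option autoImplicit false

/-! COVPROD (MP_c83c77_co): task STEP, part A -/

namespace Pool.Agent.H466R3.CPStep

open Pool.Agent.H624R3.CP

theorem gram_nonneg {d j : ℕ} (v : Fin j → E d) : 0 ≤ gram v :=
  (Matrix.posSemidef_gram ℝ v).det_nonneg

/-- determinant of `s² + Gram` -/
theorem det_aug {d k : ℕ} (s : ℝ) (y : Fin (k + 1) → E d) :
    s ^ 2 * gram (fun l : Fin k => y l.succ - y 0) ≤
      (Matrix.of fun a b : Fin (k + 1) => s ^ 2 + inner ℝ (y a) (y b)).det := by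
  set M : Matrix (Fin (k + 1)) (Fin (k + 1)) ℝ :=
    Matrix.of fun a b => s ^ 2 + inner ℝ (y a) (y b) with hM
  set c : Fin (k + 1) → ℝ := Fin.cons 0 (fun _ => -1) with hc
  have hc0 : c 0 = 0 := by simp [hc]
  have hcs : ∀ i : Fin k, c i.succ = -1 := by intro i; simp [hc]
  set M1 : Matrix (Fin (k + 1)) (Fin (k + 1)) ℝ := Matrix.of fun i j => M i j + c i * M 0 j with hM1
  set A : Matrix (Fin (k + 1)) (Fin (k + 1)) ℝ := Matrix.of fun i j => M1 i j + c j * M1 i 0 with hA
  have h1 : M1.det = M.det := Matrix.det_eq_of_forall_row_eq_smul_add_const c 0 hc0 (fun i j => rfl)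
  have h2 : A.det = M1.det := by
    rw [← Matrix.det_transpose A, ← Matrix.det_transpose M1]
    exact Matrix.det_eq_of_forall_row_eq_smul_add_const c 0 hc0 (fun i j => rfl)
  set v : Fin (k + 1) → E d := Fin.cons (y 0) (fun l => y l.succ - y 0) with hv
  set A' : Matrix (Fin (k + 1)) (Fin (k + 1)) ℝ := Matrix.of fun i j => inner ℝ (v i) (v j) with hA'
  have hv0 : v 0 = y 0 := by simp [hv]
  have hvs : ∀ i : Fin k, v i.succ = y i.succ - y 0 := by intro i; simp [hv]
  have hA'0 : 0 ≤ A'.det := gram_nonneg v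
  have e00 : A 0 0 = s ^ 2 + A' 0 0 := by
    simp only [hA, hM1, hM, hA', Matrix.of_apply, hc0, hv0]
    ring
  have e0j : ∀ j : Fin k, A 0 j.succ = A' 0 j.succ := by
    intro j
    simp only [hA, hM1, hM, hA', Matrix.of_apply, hc0, hcs, hv0, hvs, inner_sub_right]
    ring
  have ei : ∀ (i : Fin k) (j : Fin (k + 1)), A i.succ j = A' i.succ j := by
    intro i j
    refine Fin.cases ?_ (fun j => ?_) j
    · simp only [hA, hM1, hM, hA', Matrix.of_apply, hc0, hcs, hv0, hvs, inner_sub_left]
      ring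
    · simp only [hA, hM1, hM, hA', Matrix.of_apply, hcs, hvs, inner_sub_left,
        inner_sub_right]
      ring
  have hsub : ∀ j : Fin (k + 1), A.submatrix Fin.succ j.succAbove = A'.submatrix Fin.succ j.succAbove := by
    intro j
    ext a b
    exact ei a _
  have h3 : A.det = A'.det + s ^ 2 * gram (fun l : Fin k => y l.succ - y 0) := by
    rw [Matrix.det_succ_row_zero A, Matrix.det_succ_row_zero A', Fin.sum_univ_succ, Fin.sum_univ_succ]
    simp only [hsub, e00, e0j]
    have h4 : (A'.submatrix Fin.succ (Fin.succAbove 0)).det =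
        gram (fun l : Fin k => y l.succ - y 0) := by
      unfold gram
      congr 1
    rw [h4]
    simp only [Fin.val_zero, pow_zero]
    ring
  rw [← h1, ← h2, h3]
  linarith

/-- augmentation of the vectors of an `m`-dimensional subspace -/
theorem exists_aug {d m : ℕ} (D : Submodule ℝ (E d)) (hD : Module.finrank ℝ D = m) (s : ℝ) :
    ∃ U : D → E (m + 1), ∀ y z : D, inner ℝ (U y) (U z) = s ^ 2 + inner ℝ (y : E d) (z : E d) := by
  subst hD
  set B := stdOrthonormalBasis ℝ D
  refine ⟨fun y => WithLp.toLp 2 (Fin.cons s (fun i => B.repr y i)), ?_⟩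
  intro y z
  have h1 : inner ℝ (y : E d) (z : E d) = inner ℝ y z := rfl
  rw [h1, ← B.repr.inner_map_map y z]
  simp only [PiLp.inner_apply, Fin.sum_univ_succ, Fin.cons_zero, Fin.cons_succ]
  simp [pow_two]

end Pool.Agent.H466R3.CPStep
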