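import Pool.Agent.H777R4.DM.Stmts

/-! MP_ec2393_nt: task PRIM0 -/

set_option autoImplicit false
set_option maxHeartbeats 4000000

namespace Pool.Agent.H466R3.DMPrim0

open Pool.Agent.H777R4.DM

/-- total length of a pair of words -/
def len (m : FreeMonoid ℕ × FreeMonoid ℕ) : ℕ :=
  (FreeMonoid.toList m.1).length + (FreeMonoid.toList m.2).length

theorem len_mul (m n : FreeMonoid ℕ × FreeMonoid ℕ) : len (m * n) = len m + len n := by
  unfold len
  rw [Prod.fst_mul, Prod.snd_mul, FreeMonoid.toList_mul, FreeMonoid.toList_mul,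
    List.length_append, List.length_append]
  omega

/-- span of the pairs of words whose total length satisfies `p` -/
noncomputable def Sp (p : ℕ → Prop) : Submodule ℚ AYY :=
  Submodule.span ℚ {Q | ∃ m, p (len m) ∧ Q = MonoidAlgebra.of ℚ (FreeMonoid ℕ × FreeMonoid ℕ) m}

theorem Sp_mono {p q : ℕ → Prop} (h : ∀ n, p n → q n) : Sp p ≤ Sp q := by
  apply Submodule.span_mono
  rintro Q ⟨m, hm, rfl⟩
  exact ⟨m, h _ hm, rfl⟩

theorem Sp_mul {p q s : ℕ → Prop} (h : ∀ a b, p a → q b → s (a + b)) {P Q : AYY}
    (hP : P ∈ Sp p) (hQ : Q ∈ Sp q) : P * Q ∈ Sp s := by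
  have h1 : P * Q ∈ Sp p * Sp q := Submodule.mul_mem_mul hP hQ
  unfold Sp at h1
  rw [Submodule.span_mul_span] at h1
  refine Submodule.span_mono ?_ h1
  rintro R ⟨_, ⟨m, hm, rfl⟩, _, ⟨n, hn, rfl⟩, rfl⟩
  refine ⟨m * n, ?_, ?_⟩
  · rw [len_mul]
    exact h _ _ hm hn
  · simp only [map_mul]

theorem Sp_coeff {p : ℕ → Prop} {P : AYY} (hP : P ∈ Sp p) (m : FreeMonoid ℕ × FreeMonoid ℕ)
    (hm : P.coeff m ≠ 0) : p (len m) := by
  by_contra hc
  apply hm
  have h1 : Sp p ≤ LinearMap.ker ((Finsupp.lapply m : _ →ₗ[ℚ] ℚ) ∘ₗ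
      (MonoidAlgebra.coeffLinearEquiv ℚ : AYY ≃ₗ[ℚ] _).toLinearMap) := by
    apply Submodule.span_le.2
    rintro Q ⟨n, hn, rfl⟩
    rw [SetLike.mem_coe, LinearMap.mem_ker]
    have hne : n ≠ m := by
      rintro rfl
      exact hc hn
    simp [hne]
  exact LinearMap.mem_ker.1 (h1 hP)

theorem inl_wd (t : List ℕ) : inl (wd t) ∈ Sp (fun n => n = t.length) := by
  apply Submodule.subset_span
  refine ⟨(FreeMonoid.ofList t, 1), ?_, ?_⟩
  · simp [len]
  · unfold inl wd
    simp

theorem inr_wd (t : List ℕ) : inr (wd t) ∈ Sp (fun n => n = t.length) := by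
  apply Submodule.subset_span
  refine ⟨(1, FreeMonoid.ofList t), ?_, ?_⟩
  · simp [len]
  · unfold inr wd
    simp

theorem pk (k : ℕ) : inl (wd [k]) + inr (wd [k]) ∈ Sp (fun n => n = 1) :=
  Submodule.add_mem _ (inl_wd [k]) (inr_wd [k])

theorem starL_sub (k : ℕ) : starL k - (inl (wd [k]) + inr (wd [k])) ∈ Sp (fun n => 2 ≤ n) := by
  have h : starL k - (inl (wd [k]) + inr (wd [k])) =
      ∑ i ∈ Finset.range k, inl (wd [i]) * inr (wd [k - 1 - i]) := by
    unfold H777R4.DM.starL
    abel
  rw [h]
  apply Submodule.sum_mem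
  intro i _
  refine Sp_mul ?_ (inl_wd [i]) (inr_wd [k - 1 - i])
  intro a b ha hb
  simp only [List.length_singleton] at ha hb
  omega

theorem starL_mem (k : ℕ) : starL k ∈ Sp (fun n => 1 ≤ n) := by
  have h : starL k = (starL k - (inl (wd [k]) + inr (wd [k]))) + (inl (wd [k]) + inr (wd [k])) := by
    abel
  rw [h]
  apply Submodule.add_mem
  · exact Sp_mono (fun n hn => by omega) (starL_sub k)
  · exact Sp_mono (fun n hn => by omega) (pk k)

theorem wd_nil {α : Type} : wd ([] : List α) = 1 := by
  unfold wd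
  rw [FreeMonoid.ofList_nil, map_one]

theorem wd_cons {α : Type} (a : α) (l : List α) : wd (a :: l) = wd [a] * wd l := by
  unfold wd
  rw [← map_mul]
  rfl

theorem star_one (k : ℕ) : starΔ (wd [k]) = starL k := by
  unfold starΔ wd
  rw [MonoidAlgebra.lift_of, FreeMonoid.lift_apply]
  simp

theorem sh_one (k : ℕ) : shΔ (wd [k]) = inl (wd [k]) + inr (wd [k]) := by
  unfold shΔ
  rw [wd, MonoidAlgebra.lift_of, FreeMonoid.lift_apply]
  simp [wd]

theorem one_mem : (1 : AYY) ∈ Sp (fun n => n = 0) := by
  apply Submodule.subset_span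
  exact ⟨1, by simp [len], (map_one _).symm⟩

theorem sh_wd (t : List ℕ) : shΔ (wd t) ∈ Sp (fun n => n = t.length) := by
  induction t with
  | nil =>
    rw [wd_nil, map_one]
    exact one_mem
  | cons k t ih =>
    rw [wd_cons, map_mul, sh_one]
    refine Sp_mul ?_ (pk k) ih
    intro a b ha hb
    simp only [List.length_cons]
    omega

theorem star_sub_sh (t : List ℕ) :
    starΔ (wd t) - shΔ (wd t) ∈ Sp (fun n => t.length + 1 ≤ n) := by
  induction t with
  | nil =>
    rw [wd_nil, map_one, map_one, sub_self]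
    exact Submodule.zero_mem _
  | cons k t ih =>
    have h1 : starΔ (wd t) ∈ Sp (fun n => t.length ≤ n) := by
      have h : starΔ (wd t) = (starΔ (wd t) - shΔ (wd t)) + shΔ (wd t) := by abel
      rw [h]
      apply Submodule.add_mem
      · exact Sp_mono (fun n hn => by omega) ih
      · exact Sp_mono (fun n hn => by omega) (sh_wd t)
    rw [wd_cons, map_mul, map_mul, sh_one, star_one]
    have h2 : starL k * starΔ (wd t) - (inl (wd [k]) + inr (wd [k])) * shΔ (wd t) =
        (starL k - (inl (wd [k]) + inr (wd [k]))) * starΔ (wd t) +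
          (inl (wd [k]) + inr (wd [k])) * (starΔ (wd t) - shΔ (wd t)) := by
      noncomm_ring
    rw [h2]
    apply Submodule.add_mem
    · refine Sp_mul ?_ (starL_sub k) h1
      intro a b ha hb
      simp only [List.length_cons]
      omega
    · refine Sp_mul ?_ (pk k) ih
      intro a b ha hb
      simp only [List.length_cons]
      omega

/-- span of the words whose length satisfies `p` -/
noncomputable def SpY (p : ℕ → Prop) : Submodule ℚ AY :=
  Submodule.span ℚ {Q | ∃ t : List ℕ, p t.length ∧ Q = wd t}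

theorem mem_SpY {p : ℕ → Prop} {P : AY} (h : ∀ v, co P v ≠ 0 → p v.length) : P ∈ SpY p := by
  have h1 : P = ∑ m ∈ P.coeff.support, P.coeff m • wd (FreeMonoid.toList m) := by
    have h2 : ∀ Q : AY, Q = ∑ m ∈ Q.coeff.support, Q.coeff m • wd (FreeMonoid.toList m) := by
      intro Q
      ext m
      have h3 := congrArg (fun f => f m) (Finsupp.sum_single Q.coeff)
      simp only [Finsupp.sum] at h3
      simp only [wd, MonoidAlgebra.coeff_sum]
      rw [← h3]
      simp
    exact h2 P
  rw [h1]
  apply Submodule.sum_mem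
  intro m hm
  apply Submodule.smul_mem
  apply Submodule.subset_span
  exact ⟨FreeMonoid.toList m, h (FreeMonoid.toList m) (by simpa [co] using hm), rfl⟩

theorem map_SpY {p q : ℕ → Prop} (f : AY →ₗ[ℚ] AYY)
    (hf : ∀ t : List ℕ, p t.length → f (wd t) ∈ Sp q) {P : AY} (hP : P ∈ SpY p) : f P ∈ Sp q := by
  have h1 : SpY p ≤ (Sp q).comap f := by
    apply Submodule.span_le.2
    rintro Q ⟨t, ht, rfl⟩
    exact hf t ht
  exact h1 hP

theorem count_wordX (v : List ℕ) : (wordX v).count 1 = v.length := by
  induction v with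
  | nil => rfl
  | cons k v ih =>
    rw [wordX, List.count_append, List.count_cons, ih, List.length_cons, List.count_replicate]
    simp

theorem prim0 : TaskPrim0 := by
  intro ψ hψ r hr hsup F hF
  obtain ⟨P, hP, hst⟩ := hψ.star
  have hcorr : ∀ v : List ℕ, v.length ≤ r → corr ψ v = 0 := by
    intro v hv
    unfold corr
    split_ifs with h
    · have h1 : co ψ (List.replicate (v.length - 1) 0 ++ [1]) = 0 := by
        by_contra hc
        have h2 := hsup _ hc
        rw [List.count_append, List.count_replicate] at h2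
        simp at h2
        omega
      rw [h1, mul_zero]
    · rfl
  have hFm : F ∈ SpY (fun n => n = r) := by
    apply mem_SpY
    intro v hv
    rw [hF v] at hv
    by_contra hc
    exact hv (if_neg hc)
  have hPF : P - F ∈ SpY (fun n => r + 1 ≤ n) := by
    apply mem_SpY
    intro v hv
    by_contra hc
    apply hv
    have h1 : co (P - F) v = co P v - co F v := by
      unfold co
      simp
    rw [h1, hP v, hF v, hcorr v (by omega)]
    by_cases hl : v.length = r
    · rw [if_pos hl]
      ring
    · rw [if_neg hl]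
      have h2 : co ψ (wordX v) = 0 := by
        by_contra hc2
        have h3 := hsup _ hc2
        rw [count_wordX] at h3
        omega
      rw [h2]
      ring
  have hA : shΔ F - (inl F + inr F) ∈ Sp (fun n => n = r) := by
    have := map_SpY (p := fun n => n = r) (q := fun n => n = r)
      (shΔ.toLinearMap - (inl.toLinearMap + inr.toLinearMap)) (by
        intro t ht
        simp only [LinearMap.sub_apply, LinearMap.add_apply, AlgHom.toLinearMap_apply]
        have e : ∀ n, n = t.length → n = r := fun n hn => by rw [hn, ht]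
        exact Submodule.sub_mem _ (Sp_mono e (sh_wd t))
          (Submodule.add_mem _ (Sp_mono e (inl_wd t)) (Sp_mono e (inr_wd t)))) hFm
    simpa using this
  have hB : shΔ F - (inl F + inr F) ∈ Sp (fun n => r + 1 ≤ n) := by
    have h1 : shΔ F - (inl F + inr F) = -(starΔ F - shΔ F) +
        -(starΔ (P - F) - (inl (P - F) + inr (P - F))) := by
      rw [map_sub, map_sub, map_sub, hst]
      abel
    rw [h1]
    apply Submodule.add_mem
    · apply Submodule.neg_mem
      have := map_SpY (p := fun n => n = r) (q := fun n => r + 1 ≤ n)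
        (starΔ.toLinearMap - shΔ.toLinearMap) (by
          intro t ht
          simp only [LinearMap.sub_apply, AlgHom.toLinearMap_apply]
          exact Sp_mono (fun n hn => by omega) (star_sub_sh t)) hFm
      simpa using this
    · apply Submodule.neg_mem
      have := map_SpY (p := fun n => r + 1 ≤ n) (q := fun n => r + 1 ≤ n)
        (starΔ.toLinearMap - (inl.toLinearMap + inr.toLinearMap)) (by
          intro t ht
          simp only [LinearMap.sub_apply, LinearMap.add_apply, AlgHom.toLinearMap_apply]
          have e : ∀ n, n = t.length → r + 1 ≤ n := fun n hn => by omega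
          have h3 : starΔ (wd t) = (starΔ (wd t) - shΔ (wd t)) + shΔ (wd t) := by abel
          rw [h3]
          exact Submodule.sub_mem _ (Submodule.add_mem _
            (Sp_mono (fun n hn => by omega) (star_sub_sh t)) (Sp_mono e (sh_wd t)))
            (Submodule.add_mem _ (Sp_mono e (inl_wd t)) (Sp_mono e (inr_wd t)))) hPF
      simpa using this
  have hz : ∀ m, (shΔ F - (inl F + inr F)).coeff m = 0 := by
    intro m
    by_contra hc
    have h1 := Sp_coeff hA m hc
    have h2 := Sp_coeff hB m hc
    omega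
  have hzero : shΔ F - (inl F + inr F) = 0 := by
    ext m
    exact hz m
  exact sub_eq_zero.1 hzero

end Pool.Agent.H466R3.DMPrim0
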