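import Mathlib
import Pool.Agent.H182R3.MO.Stmts

/-! Task V of the MO project (helper182): smooth Volterra equations of the second kind. -/

set_option autoImplicit false

open MeasureTheory Set Filter Topology
open scoped ContDiff Real

namespace Pool.Agent.H466R3.MOV

/-- partial derivative in the first variable -/
noncomputable def D1 (N : ℝ → ℝ → ℝ) (x q : ℝ) : ℝ :=
  fderiv ℝ (fun p : ℝ × ℝ => N p.1 p.2) (x, q) (1, 0)

lemma D1_smooth {N : ℝ → ℝ → ℝ} (hN : ContDiff ℝ ∞ (fun p : ℝ × ℝ => N p.1 p.2)) :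
    ContDiff ℝ ∞ (fun p : ℝ × ℝ => D1 N p.1 p.2) := by
  have h1 : ContDiff ℝ ∞ (fderiv ℝ (fun p : ℝ × ℝ => N p.1 p.2)) :=
    hN.fderiv_right (m := ∞) (by simp)
  exact h1.clm_apply contDiff_const

lemma hasDerivAt_D1 {N : ℝ → ℝ → ℝ} (hN : ContDiff ℝ ∞ (fun p : ℝ × ℝ => N p.1 p.2)) (x q : ℝ) :
    HasDerivAt (fun x => N x q) (D1 N x q) x := by
  have h1 : HasFDerivAt (fun p : ℝ × ℝ => N p.1 p.2)
      (fderiv ℝ (fun p : ℝ × ℝ => N p.1 p.2) (x, q)) (x, q) :=
    (hN.differentiable (by simp) (x, q)).hasFDerivAt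
  have h2 : HasDerivAt (fun x : ℝ => (x, q)) ((1 : ℝ), (0 : ℝ)) x :=
    (hasDerivAt_id x).prodMk (hasDerivAt_const x q)
  exact h1.comp_hasDerivAt x h2

/-- the Volterra integral -/
noncomputable def VI (N : ℝ → ℝ → ℝ) (w : ℝ → ℝ) (r0 x s : ℝ) : ℝ := ∫ q in r0..s, N x q * w q

lemma VI_cont {N : ℝ → ℝ → ℝ} (hN : Continuous (fun p : ℝ × ℝ => N p.1 p.2)) {w : ℝ → ℝ}
    (hw : Continuous w) (r0 : ℝ) : Continuous (fun p : ℝ × ℝ => VI N w r0 p.1 p.2) := by
  unfold VI
  have h : Continuous (fun p : (ℝ × ℝ) × ℝ => N p.1.1 p.2 * w p.2) := by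
    have h1 : Continuous (fun p : (ℝ × ℝ) × ℝ => N p.1.1 p.2) :=
      hN.comp ((continuous_fst.comp continuous_fst).prodMk continuous_snd)
    exact h1.mul (hw.comp continuous_snd)
  exact intervalIntegral.continuous_parametric_intervalIntegral_of_continuous
    (f := fun (p : ℝ × ℝ) (q : ℝ) => N p.1 q * w q) h continuous_snd

lemma VI_deriv1 {N : ℝ → ℝ → ℝ} (hN : ContDiff ℝ ∞ (fun p : ℝ × ℝ => N p.1 p.2)) {w : ℝ → ℝ}
    (hw : Continuous w) (r0 x s : ℝ) :
    HasDerivAt (fun x => VI N w r0 x s) (VI (D1 N) w r0 x s) x := by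
  have hD := (D1_smooth hN).continuous
  obtain ⟨C, hC⟩ : ∃ C : ℝ, ∀ p ∈ Icc (x - 1) (x + 1) ×ˢ uIcc r0 s, ‖D1 N p.1 p.2 * w p.2‖ ≤ C :=
    (isCompact_Icc.prod isCompact_uIcc).exists_bound_of_continuousOn
      (hD.mul (hw.comp continuous_snd)).continuousOn
  have hcx : ∀ x, Continuous (fun q => N x q * w q) := fun x =>
    (hN.continuous.comp (continuous_const.prodMk continuous_id)).mul hw
  have hcD : ∀ x, Continuous (fun q => D1 N x q * w q) := fun x =>
    (hD.comp (continuous_const.prodMk continuous_id)).mul hw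
  refine (intervalIntegral.hasDerivAt_integral_of_dominated_loc_of_deriv_le
    (F := fun x q => N x q * w q) (F' := fun x q => D1 N x q * w q) (bound := fun _ => C)
    (s := Ioo (x - 1) (x + 1)) (Ioo_mem_nhds (by linarith) (by linarith))
    (Eventually.of_forall fun y => (hcx y).aestronglyMeasurable)
    ((hcx x).intervalIntegrable _ _) (hcD x).aestronglyMeasurable ?_
    (continuous_const.intervalIntegrable _ _) ?_).2
  · refine Eventually.of_forall fun t ht y hy => ?_
    exact hC (y, t) ⟨⟨hy.1.le, hy.2.le⟩, uIoc_subset_uIcc ht⟩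
  · refine Eventually.of_forall fun t _ y _ => ?_
    exact (hasDerivAt_D1 hN y t).mul_const _

lemma VI_deriv2 {N : ℝ → ℝ → ℝ} (hN : ContDiff ℝ ∞ (fun p : ℝ × ℝ => N p.1 p.2)) {w : ℝ → ℝ}
    (hw : Continuous w) (r0 x s : ℝ) :
    HasDerivAt (fun s => VI N w r0 x s) (N x s * w s) s := by
  have hcx : Continuous (fun q => N x q * w q) :=
    (hN.continuous.comp (continuous_const.prodMk continuous_id)).mul hw
  exact intervalIntegral.integral_hasDerivAt_right (hcx.intervalIntegrable _ _)
    hcx.aestronglyMeasurable.stronglyMeasurableAtFilter hcx.continuousAt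

lemma VI_diag {N : ℝ → ℝ → ℝ} (hN : ContDiff ℝ ∞ (fun p : ℝ × ℝ => N p.1 p.2)) {w : ℝ → ℝ}
    (hw : Continuous w) (r0 r : ℝ) :
    HasDerivAt (fun r => VI N w r0 r r) (N r r * w r + VI (D1 N) w r0 r r) r := by
  have h := hasStrictFDerivAt_uncurry_coprod (𝕜 := ℝ) (u := (r, r)) (f := fun x s => VI N w r0 x s)
    (f₁ := fun x s => ContinuousLinearMap.toSpanSingleton ℝ (VI (D1 N) w r0 x s))
    (f₂ := fun x s => ContinuousLinearMap.toSpanSingleton ℝ (N x s * w s))
    (Eventually.of_forall fun v => (VI_deriv1 hN hw r0 v.1 v.2).hasFDerivAt)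
    (Eventually.of_forall fun v => (VI_deriv2 hN hw r0 v.1 v.2).hasFDerivAt)
    ?_ ?_
  · have h2 : HasDerivAt (fun x : ℝ => (x, x)) ((1 : ℝ), (1 : ℝ)) r :=
      (hasDerivAt_id r).prodMk (hasDerivAt_id r)
    have h3 := HasFDerivAt.comp_hasDerivAt (f := fun x : ℝ => (x, x)) r h.hasFDerivAt h2
    refine h3.congr_deriv ?_
    show (ContinuousLinearMap.coprod (ContinuousLinearMap.toSpanSingleton ℝ (VI (D1 N) w r0 r r))
      (ContinuousLinearMap.toSpanSingleton ℝ (N r r * w r))) ((1 : ℝ), (1 : ℝ)) = _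
    rw [ContinuousLinearMap.coprod_apply, ContinuousLinearMap.toSpanSingleton_apply,
      ContinuousLinearMap.toSpanSingleton_apply, one_smul, one_smul, add_comm]
  · have h4 : Continuous (fun p : ℝ × ℝ => VI (D1 N) w r0 p.1 p.2) :=
      VI_cont (D1_smooth hN).continuous hw r0
    have h5 : Continuous (fun p : ℝ × ℝ =>
        ContinuousLinearMap.toSpanSingleton ℝ (VI (D1 N) w r0 p.1 p.2)) :=
      (ContinuousLinearMap.toSpanSingletonLE ℝ ℝ ℝ |>.toLinearMap.continuous_of_finiteDimensional).comp h4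
    exact h5.continuousAt
  · have h4 : Continuous (fun p : ℝ × ℝ => N p.1 p.2 * w p.2) :=
      hN.continuous.mul (hw.comp continuous_snd)
    have h5 : Continuous (fun p : ℝ × ℝ =>
        ContinuousLinearMap.toSpanSingleton ℝ (N p.1 p.2 * w p.2)) :=
      (ContinuousLinearMap.toSpanSingletonLE ℝ ℝ ℝ |>.toLinearMap.continuous_of_finiteDimensional).comp h4
    exact h5.continuousAt

/-- bootstrapping step -/
lemma boot (n : ℕ) : ∀ (N : ℝ → ℝ → ℝ), ContDiff ℝ ∞ (fun p : ℝ × ℝ => N p.1 p.2) →
    ∀ (w : ℝ → ℝ), ContDiff ℝ n w → ∀ r0 : ℝ,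
    ContDiff ℝ ((n : WithTop ℕ∞) + 1) (fun r => VI N w r0 r r) := by
  induction n with
  | zero =>
    intro N hN w hw r0
    have hwc : Continuous w := hw.continuous
    rw [contDiff_succ_iff_deriv]
    refine ⟨fun r => (VI_diag hN hwc r0 r).differentiableAt, by simp, ?_⟩
    have : deriv (fun r => VI N w r0 r r) = fun r => N r r * w r + VI (D1 N) w r0 r r :=
      funext fun r => (VI_diag hN hwc r0 r).deriv
    rw [this]
    simp only [CharP.cast_eq_zero, contDiff_zero]
    refine Continuous.add ?_ ?_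
    · exact (hN.continuous.comp (continuous_id.prodMk continuous_id)).mul hwc
    · exact (VI_cont (D1_smooth hN).continuous hwc r0).comp (continuous_id.prodMk continuous_id)
  | succ n ih =>
    intro N hN w hw r0
    have hwc : Continuous w := hw.continuous
    have hwn : ContDiff ℝ n w := hw.of_le (by exact_mod_cast Nat.le_succ n)
    rw [contDiff_succ_iff_deriv]
    refine ⟨fun r => (VI_diag hN hwc r0 r).differentiableAt, by simp, ?_⟩
    have : deriv (fun r => VI N w r0 r r) = fun r => N r r * w r + VI (D1 N) w r0 r r :=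
      funext fun r => (VI_diag hN hwc r0 r).deriv
    rw [this]
    refine ContDiff.add ?_ ?_
    · have h1 : ContDiff ℝ ∞ (fun r : ℝ => N r r) := hN.comp (contDiff_id.prodMk contDiff_id)
      exact (h1.of_le (by exact_mod_cast le_top)).mul hw
    · have h2 := ih (D1 N) (D1_smooth hN) w hwn r0
      exact_mod_cast h2

lemma kernel_bound {A : ℝ → ℝ → ℝ} {C lam r0 : ℝ} (hlam : 0 < lam)
    (hC : ∀ r q, r0 ≤ q → q ≤ r → |A r q| ≤ C) (om : ℝ → ℝ) (B : ℝ) (hB : ∀ q, |om q| ≤ B)
    (hC0 : 0 ≤ C) (r : ℝ) :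
    |∫ q in r0..(max r0 r), A r q * Real.exp (-lam * (r - q)) * om q| ≤ C * B / lam := by
  have hB0 : 0 ≤ B := (abs_nonneg _).trans (hB 0)
  rcases le_total r r0 with h | h
  · rw [max_eq_left h, intervalIntegral.integral_same, abs_zero]
    positivity
  · rw [max_eq_right h, ← Real.norm_eq_abs]
    have hg : Continuous (fun q : ℝ => C * B * Real.exp (-lam * (r - q))) := by fun_prop
    refine (intervalIntegral.norm_integral_le_of_norm_le h (g := fun q => C * B * Real.exp (-lam * (r - q)))
      ?_ (hg.intervalIntegrable _ _)).trans ?_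
    · refine Eventually.of_forall fun q hq => ?_
      rw [norm_mul, norm_mul, Real.norm_eq_abs, Real.norm_eq_abs, Real.norm_eq_abs, Real.abs_exp]
      have h1 := hC r q hq.1.le hq.2
      have h2 := hB q
      have h3 := Real.exp_pos (-lam * (r - q))
      calc |A r q| * Real.exp (-lam * (r - q)) * |om q|
          ≤ C * Real.exp (-lam * (r - q)) * B := by gcongr
        _ = C * B * Real.exp (-lam * (r - q)) := by ring
    · have hd : ∀ q ∈ uIcc r0 r, HasDerivAt (fun q : ℝ => C * B / lam * Real.exp (-lam * (r - q)))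
          (C * B * Real.exp (-lam * (r - q))) q := by
        intro q _
        have h1 : HasDerivAt (fun q : ℝ => -lam * (r - q)) lam q := by
          have := ((hasDerivAt_id q).const_sub r).const_mul (-lam)
          refine this.congr_deriv ?_
          ring
        have h2 := (h1.exp).const_mul (C * B / lam)
        refine h2.congr_deriv ?_
        field_simp
      rw [intervalIntegral.integral_eq_sub_of_hasDerivAt hd (hg.intervalIntegrable _ _)]
      have h1 : -lam * (r - r) = 0 := by ring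
      rw [h1, Real.exp_zero, mul_one]
      have h2 : 0 ≤ C * B / lam * Real.exp (-lam * (r - r0)) := by positivity
      linarith

/-- continuous solution -/
lemma cont_sol {A : ℝ → ℝ → ℝ} {G : ℝ → ℝ} {C r0 : ℝ} (hC0 : 0 ≤ C)
    (hA : Continuous (fun p : ℝ × ℝ => A p.1 p.2)) (hC : ∀ r q, r0 ≤ q → q ≤ r → |A r q| ≤ C)
    (hG : Continuous G) (hGb : ∀ lam : ℝ, ∃ B, ∀ r, |Real.exp (-lam * r) * G r| ≤ B)
    (hG0 : ∀ r ≤ r0, G r = 0) :
    ∃ w : ℝ → ℝ, Continuous w ∧ (∀ r ≤ r0, w r = 0) ∧
      ∀ r, w r = G r + ∫ q in r0..r, A r q * w q := by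
  set lam : ℝ := 2 * C + 1 with hlam
  have hlam0 : 0 < lam := by rw [hlam]; linarith
  obtain ⟨B, hB⟩ := hGb lam
  have hcont : ∀ om : ℝ → ℝ, Continuous om → Continuous (fun r =>
      Real.exp (-lam * r) * G r +
        ∫ q in r0..(max r0 r), A r q * Real.exp (-lam * (r - q)) * om q) := by
    intro om hom
    refine Continuous.add (by fun_prop) ?_
    have h : Continuous (fun p : ℝ × ℝ => A p.1 p.2 * Real.exp (-lam * (p.1 - p.2)) * om p.2) :=
      (hA.mul (by fun_prop)).mul (hom.comp continuous_snd)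
    exact intervalIntegral.continuous_parametric_intervalIntegral_of_continuous
      (f := fun (r : ℝ) (q : ℝ) => A r q * Real.exp (-lam * (r - q)) * om q) h (by fun_prop)
  let T : BoundedContinuousFunction ℝ ℝ → BoundedContinuousFunction ℝ ℝ := fun om =>
    BoundedContinuousFunction.ofNormedAddCommGroup
      (fun r => Real.exp (-lam * r) * G r +
        ∫ q in r0..(max r0 r), A r q * Real.exp (-lam * (r - q)) * om q)
      (hcont om om.continuous) (B + C * ‖om‖ / lam) (by
        intro r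
        refine (norm_add_le _ _).trans (add_le_add (hB r) ?_)
        exact kernel_bound hlam0 hC om ‖om‖ (fun q => om.norm_coe_le_norm q) hC0 r)
  have hT : ContractingWith (1 / 2) T := by
    refine ⟨by norm_num, ?_⟩
    apply LipschitzWith.of_dist_le_mul
    intro f g
    rw [dist_eq_norm, dist_eq_norm]
    refine (BoundedContinuousFunction.norm_le (by positivity)).2 fun r => ?_
    have hi : ∀ f : BoundedContinuousFunction ℝ ℝ, IntervalIntegrable
        (fun q => A r q * Real.exp (-lam * (r - q)) * f q) volume r0 (max r0 r) := by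
      intro f
      have : Continuous (fun q => A r q * Real.exp (-lam * (r - q)) * f q) :=
        ((hA.comp (continuous_const.prodMk continuous_id)).mul (by fun_prop)).mul f.continuous
      exact this.intervalIntegrable _ _
    have h1 : (T f - T g) r
        = ∫ q in r0..(max r0 r), A r q * Real.exp (-lam * (r - q)) * (f - g) q := by
      show (Real.exp (-lam * r) * G r +
        ∫ q in r0..(max r0 r), A r q * Real.exp (-lam * (r - q)) * f q) -
        (Real.exp (-lam * r) * G r +
        ∫ q in r0..(max r0 r), A r q * Real.exp (-lam * (r - q)) * g q) = _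
      rw [add_sub_add_left_eq_sub, ← intervalIntegral.integral_sub (hi f) (hi g)]
      congr 1
      funext q
      show _ = A r q * Real.exp (-lam * (r - q)) * (f q - g q)
      ring
    rw [h1]
    have h2 := kernel_bound hlam0 hC (f - g) ‖f - g‖ (fun q => (f - g).norm_coe_le_norm q) hC0 r
    refine h2.trans ?_
    have h3 : C / lam ≤ 1 / 2 := by
      rw [div_le_div_iff₀ hlam0 (by norm_num)]
      rw [hlam]; linarith
    have h4 : ((1 / 2 : NNReal) : ℝ) = 1 / 2 := by norm_num
    rw [h4]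
    calc C * ‖f - g‖ / lam = C / lam * ‖f - g‖ := by ring
      _ ≤ 1 / 2 * ‖f - g‖ := by gcongr
  set om := hT.fixedPoint T with hom
  have hfix : T om = om := hT.fixedPoint_isFixedPt
  have heq : ∀ r, om r = Real.exp (-lam * r) * G r +
      ∫ q in r0..(max r0 r), A r q * Real.exp (-lam * (r - q)) * om q := by
    intro r
    conv_lhs => rw [← hfix]
    rfl
  have hz : ∀ r ≤ r0, om r = 0 := by
    intro r hr
    rw [heq r, max_eq_left hr, intervalIntegral.integral_same, hG0 r hr]
    simp
  refine ⟨fun r => Real.exp (lam * r) * om r, by fun_prop, fun r hr => by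
    simp only; rw [hz r hr, mul_zero], ?_⟩
  intro r
  simp only
  rcases le_total r r0 with h | h
  · rw [hz r h, hG0 r h, mul_zero, zero_add]
    symm
    rw [intervalIntegral.integral_congr (g := fun _ => (0 : ℝ))]
    · simp
    · intro q hq
      rw [uIcc_of_ge h] at hq
      simp only
      rw [hz q hq.2]
      ring
  · rw [heq r, max_eq_right h, mul_add, ← mul_assoc, ← Real.exp_add]
    have h1 : lam * r + -lam * r = 0 := by ring
    rw [h1, Real.exp_zero, one_mul, ← intervalIntegral.integral_const_mul]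
    congr 1
    apply intervalIntegral.integral_congr
    intro q _
    simp only
    have h2 : Real.exp (lam * r) * Real.exp (-lam * (r - q)) = Real.exp (lam * q) := by
      rw [← Real.exp_add]; ring_nf
    calc Real.exp (lam * r) * (A r q * Real.exp (-lam * (r - q)) * om q)
        = A r q * (Real.exp (lam * r) * Real.exp (-lam * (r - q)) * om q) := by ring
      _ = A r q * (Real.exp (lam * q) * om q) := by rw [h2]

open Pool.Agent.H182R3.MO in
theorem t : TaskV := by
  intro M g r0 r1 hr hM hg hg0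
  set χ : ℝ → ℝ := fun r => Real.smoothTransition (r1 + 1 - r) with hχ
  have hχs : ContDiff ℝ ∞ χ := by
    rw [hχ]
    exact Real.smoothTransition.contDiff.comp (by fun_prop)
  have hχ1 : ∀ r ≤ r1, χ r = 1 := fun r hr => Real.smoothTransition.one_of_one_le (by linarith)
  have hχ0 : ∀ r, r1 + 1 ≤ r → χ r = 0 := fun r hr =>
    Real.smoothTransition.zero_of_nonpos (by linarith)
  set A : ℝ → ℝ → ℝ := fun r q => χ r * M r q with hA
  set G : ℝ → ℝ := fun r => χ r * g r with hG
  have hAs : ContDiff ℝ ∞ (fun p : ℝ × ℝ => A p.1 p.2) := (hχs.comp contDiff_fst).mul hM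
  have hGs : ContDiff ℝ ∞ G := hχs.mul hg
  obtain ⟨C, hC⟩ : ∃ C : ℝ, ∀ p ∈ Icc r0 (r1 + 1) ×ˢ Icc r0 (r1 + 1), ‖A p.1 p.2‖ ≤ C :=
    (isCompact_Icc.prod isCompact_Icc).exists_bound_of_continuousOn hAs.continuous.continuousOn
  have hC0 : 0 ≤ C := (norm_nonneg _).trans (hC (r0, r0) ⟨⟨le_rfl, by linarith⟩, ⟨le_rfl, by linarith⟩⟩)
  have hCb : ∀ r q, r0 ≤ q → q ≤ r → |A r q| ≤ C := by
    intro r q h1 h2
    rcases le_total r (r1 + 1) with h | h
    · exact hC (r, q) ⟨⟨h1.trans h2, h⟩, ⟨h1, h2.trans h⟩⟩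
    · simp only [hA]
      rw [hχ0 r h, zero_mul, abs_zero]
      exact hC0
  have hG0 : ∀ r ≤ r0, G r = 0 := fun r hr => by simp only [hG]; rw [hg0 r hr, mul_zero]
  have hGb : ∀ lam : ℝ, ∃ B, ∀ r, |Real.exp (-lam * r) * G r| ≤ B := by
    intro lam
    have hc : Continuous (fun r => Real.exp (-lam * r) * G r) := by
      have := hGs.continuous
      fun_prop
    obtain ⟨B, hB⟩ := (isCompact_Icc (a := r0) (b := r1 + 1)).exists_bound_of_continuousOn
      hc.continuousOn
    have hB0 : 0 ≤ B := (norm_nonneg _).trans (hB r0 ⟨le_rfl, by linarith⟩)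
    refine ⟨B, fun r => ?_⟩
    rcases le_total r r0 with h | h
    · rw [hG0 r h, mul_zero, abs_zero]; exact hB0
    · rcases le_total r (r1 + 1) with h' | h'
      · exact hB r ⟨h, h'⟩
      · simp only [hG]
        rw [hχ0 r h', zero_mul, mul_zero, abs_zero]; exact hB0
  obtain ⟨w, hwc, hw0, hw⟩ := cont_sol hC0 hAs.continuous hCb hGs.continuous hGb hG0
  have hwn : ∀ n : ℕ, ContDiff ℝ n w := by
    intro n
    induction n with
    | zero => exact_mod_cast contDiff_zero.2 hwc
    | succ n ih =>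
      have h1 := boot n A hAs w ih r0
      have h2 : w = fun r => G r + VI A w r0 r r := funext fun r => hw r
      rw [h2]
      have h3 : ContDiff ℝ ((n : WithTop ℕ∞) + 1) G := hGs.of_le (by exact_mod_cast le_top)
      exact_mod_cast h3.add h1
  refine ⟨w, contDiff_infty.2 hwn, hw0, ?_⟩
  intro r hr'
  have h1 := hw r
  simp only [hG, hA] at h1
  rw [hχ1 r hr'.2, one_mul] at h1
  rw [h1]
  congr 1
  apply intervalIntegral.integral_congr
  intro q _
  simp only
  rw [one_mul]

end Pool.Agent.H466R3.MOV
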