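import Pool.Agent.H197R3.SF.Stmts

set_option autoImplicit false

/-! H197-SF (MP_090951_an): task Sm -/

namespace Pool.Agent.H466R3.SFSm

open MeasureTheory Filter Topology Set
open Pool.Agent.H197R3.SF

theorem conv_all {k B : ℝ → ℂ} (hk : Integrable k) (hB : Integrable B) :
    Integrable (fun t => ∫ s, k s * B (t - s)) ∧
    (∫ t, ‖∫ s, k s * B (t - s)‖) ≤ (∫ s, ‖k s‖) * ∫ s, ‖B s‖ ∧
    ∀ᵐ t, Integrable (fun s => k s * B (t - s)) := by
  have h1 : Integrable (fun t => ∫ s, k s * B (t - s)) :=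
    hk.integrable_convolution (ContinuousLinearMap.mul ℝ ℂ) hB
  have h2 : ∀ᵐ t, Integrable (fun s => k s * B (t - s)) :=
    hk.ae_convolution_exists (ContinuousLinearMap.mul ℝ ℂ) hB
  refine ⟨h1, ?_, h2⟩
  have h3 : Integrable (fun t => ∫ s, ‖k s‖ * ‖B (t - s)‖) :=
    hk.norm.integrable_convolution (ContinuousLinearMap.mul ℝ ℝ) hB.norm
  have h4 : ∫ t, (∫ s, ‖k s‖ * ‖B (t - s)‖) = (∫ s, ‖k s‖) * ∫ s, ‖B s‖ :=
    integral_convolution (ContinuousLinearMap.mul ℝ ℝ) hk.norm hB.norm
  rw [← h4]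
  apply integral_mono h1.norm h3
  intro t
  calc ‖∫ s, k s * B (t - s)‖ ≤ ∫ s, ‖k s * B (t - s)‖ := norm_integral_le_integral_norm _
    _ = _ := by simp only [norm_mul]

theorem fix {n : ℕ} (k : Fin n → Fin n → ℝ → ℂ) (hk : ∀ i j, Integrable (k i j))
    (hsum : ∑ i, ∑ j, ∫ s, ‖k i j s‖ ≤ 1 / 2) (R : Fin n → ℝ → ℂ) (hR : ∀ i, Integrable (R i)) :
    ∃ B : Fin n → ℝ → ℂ, (∀ i, Integrable (B i)) ∧ ∀ i, ∀ᵐ t : ℝ,
      B i t = (Ici (0 : ℝ)).indicator (fun t => R i t - ∑ j, ∫ s, k i j s * B j (t - s)) t := by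
  have hint : ∀ (B : Fin n → (ℝ →₁[volume] ℂ)) (i : Fin n), Integrable
      ((Ici (0 : ℝ)).indicator (fun t => R i t - ∑ j, ∫ s, k i j s * B j (t - s))) := by
    intro B i
    apply Integrable.indicator _ measurableSet_Ici
    apply (hR i).sub
    apply integrable_finsetSum
    intro j _
    exact (conv_all (hk i j) (L1.integrable_coeFn (B j))).1
  set Φ : (Fin n → (ℝ →₁[volume] ℂ)) → (Fin n → (ℝ →₁[volume] ℂ)) :=
    fun B i => (hint B i).toL1 _ with hΦ
  have hcontr : ContractingWith (1 / 2 : NNReal) Φ := by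
    refine ⟨by
      rw [← NNReal.coe_lt_coe]
      norm_num, LipschitzWith.of_dist_le_mul ?_⟩
    intro B B'
    have hpos : 0 ≤ ((1 / 2 : NNReal) : ℝ) * dist B B' := by positivity
    rw [dist_pi_le_iff hpos]
    intro i
    rw [dist_eq_norm, hΦ]
    simp only
    rw [← Integrable.toL1_sub, L1.norm_of_fun_eq_integral_norm]
    have h1 : ∀ j, (∫ t, ‖∫ s, k i j s * (B' j - B j : ℝ →₁[volume] ℂ) (t - s)‖) ≤
        (∫ s, ‖k i j s‖) * dist B B' := by
      intro j
      refine (conv_all (hk i j) (L1.integrable_coeFn (B' j - B j))).2.1.trans ?_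
      rw [← L1.norm_eq_integral_norm, ← dist_eq_norm, dist_comm]
      exact mul_le_mul_of_nonneg_left (dist_le_pi_dist B B' j)
        (integral_nonneg fun s => norm_nonneg _)
    have h2 : ∀ j, ∀ᵐ t : ℝ, (∫ s, k i j s * (B' j - B j : ℝ →₁[volume] ℂ) (t - s)) =
        (∫ s, k i j s * B' j (t - s)) - ∫ s, k i j s * B j (t - s) := by
      intro j
      filter_upwards [(conv_all (hk i j) (L1.integrable_coeFn (B' j))).2.2,
        (conv_all (hk i j) (L1.integrable_coeFn (B j))).2.2] with t ht1 ht2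
      rw [← integral_sub ht1 ht2]
      apply integral_congr_ae
      have h3 : (fun s => (B' j - B j : ℝ →₁[volume] ℂ) (t - s)) =ᵐ[volume]
          fun s => B' j (t - s) - B j (t - s) := by
        exact (Measure.measurePreserving_sub_left volume t).quasiMeasurePreserving.ae_eq_comp
          (Lp.coeFn_sub (B' j) (B j))
      filter_upwards [h3] with s hs
      rw [hs]
      ring
    have h4 : ∀ᵐ t : ℝ, ‖((Ici (0 : ℝ)).indicator
          (fun t => R i t - ∑ j, ∫ s, k i j s * B j (t - s)) -
        (Ici (0 : ℝ)).indicator (fun t => R i t - ∑ j, ∫ s, k i j s * B' j (t - s))) t‖ ≤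
        ∑ j, ‖∫ s, k i j s * (B' j - B j : ℝ →₁[volume] ℂ) (t - s)‖ := by
      have h5 := ae_all_iff.2 h2
      filter_upwards [h5] with t ht
      rw [Pi.sub_apply]
      by_cases hmem : t ∈ Ici (0 : ℝ)
      · rw [indicator_of_mem hmem, indicator_of_mem hmem]
        refine le_trans (le_of_eq ?_) (norm_sum_le _ _)
        congr 1
        simp only [ht, Finset.sum_sub_distrib]
        ring
      · rw [indicator_of_notMem hmem, indicator_of_notMem hmem, sub_zero, norm_zero]
        positivity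
    calc _ ≤ ∫ t, ∑ j, ‖∫ s, k i j s * (B' j - B j : ℝ →₁[volume] ℂ) (t - s)‖ := by
          apply integral_mono_ae ((hint B i).sub (hint B' i)).norm _ h4
          apply integrable_finsetSum
          intro j _
          exact (conv_all (hk i j) (L1.integrable_coeFn (B' j - B j))).1.norm
      _ = ∑ j, ∫ t, ‖∫ s, k i j s * (B' j - B j : ℝ →₁[volume] ℂ) (t - s)‖ := by
          apply integral_finsetSum
          intro j _
          exact (conv_all (hk i j) (L1.integrable_coeFn (B' j - B j))).1.norm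
      _ ≤ ∑ j, (∫ s, ‖k i j s‖) * dist B B' := Finset.sum_le_sum fun j _ => h1 j
      _ = (∑ j, ∫ s, ‖k i j s‖) * dist B B' := by rw [Finset.sum_mul]
      _ ≤ (1 / 2) * dist B B' := by
          apply mul_le_mul_of_nonneg_right _ dist_nonneg
          refine le_trans ?_ hsum
          exact Finset.single_le_sum (f := fun i => ∑ j, ∫ s, ‖k i j s‖)
            (fun i _ => Finset.sum_nonneg fun j _ => integral_nonneg fun s => norm_nonneg _)
            (Finset.mem_univ i)
      _ = _ := by norm_num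
  have hfp := hcontr.fixedPoint_isFixedPt
  set B := ContractingWith.fixedPoint Φ hcontr
  refine ⟨fun i => B i, fun i => L1.integrable_coeFn (B i), ?_⟩
  intro i
  have h1 : Φ B i = B i := congrFun hfp i
  have h2 := (hint B i).coeFn_toL1
  have h3 : ((hint B i).toL1 _ : ℝ →₁[volume] ℂ) = B i := h1
  rw [h3] at h2
  exact h2

theorem taskSm : TaskSm := by
  intro n ε g hε hg hsum r hr
  -- the kernels
  have hmeas : ∀ i j, AEStronglyMeasurable (fun t => g t i j) := by
    intro i j
    have h1 := (hg i j).aestronglyMeasurable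
    have h2 : (fun t => g t i j) =
        fun t => (g t i j * wt ε t) * ((Real.exp (-(ε * |t|)) : ℝ) : ℂ) := by
      funext t
      unfold wt
      rw [mul_assoc, ← Complex.ofReal_mul, ← Real.exp_add, add_neg_cancel, Real.exp_zero,
        Complex.ofReal_one, mul_one]
    rw [h2]
    apply h1.mul
    apply Continuous.aestronglyMeasurable
    fun_prop
  set k : Fin n → Fin n → ℝ → ℂ := fun i j s => g s i j * ((Real.exp (ε * s) : ℝ) : ℂ) with hkdef
  have hle : ∀ i j s, ‖k i j s‖ ≤ ‖g s i j‖ * Real.exp (ε * |s|) := by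
    intro i j s
    rw [hkdef]
    simp only
    rw [norm_mul, Complex.norm_real, Real.norm_of_nonneg (Real.exp_pos _).le]
    apply mul_le_mul_of_nonneg_left _ (norm_nonneg _)
    apply Real.exp_le_exp.2
    exact mul_le_mul_of_nonneg_left (le_abs_self s) hε.le
  have hgn : ∀ i j, Integrable (fun s => ‖g s i j‖ * Real.exp (ε * |s|)) := by
    intro i j
    refine (hg i j).norm.congr (Eventually.of_forall fun s => ?_)
    simp only [wt]
    rw [norm_mul, Complex.norm_real, Real.norm_of_nonneg (Real.exp_pos _).le]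
  have hk : ∀ i j, Integrable (k i j) := by
    intro i j
    refine Integrable.mono' (hgn i j) ?_ (Eventually.of_forall (hle i j))
    apply (hmeas i j).mul
    apply Continuous.aestronglyMeasurable
    fun_prop
  have hks : ∑ i, ∑ j, ∫ s, ‖k i j s‖ ≤ 1 / 2 := by
    refine le_trans ?_ hsum
    apply Finset.sum_le_sum
    intro i _
    apply Finset.sum_le_sum
    intro j _
    exact integral_mono (hk i j).norm (hgn i j) (hle i j)
  obtain ⟨B, hBint, hB⟩ := fix k hk hks
    (fun i t => r t i * ((Real.exp (ε * t) : ℝ) : ℂ)) hr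
  -- `B` vanishes on the negative half line
  have hB0 : ∀ j, (fun t => B j t) =ᵐ[volume] (Ici (0 : ℝ)).indicator (B j) := by
    intro j
    filter_upwards [hB j] with t ht
    by_cases hmem : t ∈ Ici (0 : ℝ)
    · rw [indicator_of_mem hmem]
    · rw [indicator_of_notMem hmem, ht, indicator_of_notMem hmem]
  have hexp : ∀ t : ℝ, ((Real.exp (-(ε * t)) : ℝ) : ℂ) * ((Real.exp (ε * t) : ℝ) : ℂ) = 1 := by
    intro t
    rw [← Complex.ofReal_mul, ← Real.exp_add, neg_add_cancel, Real.exp_zero, Complex.ofReal_one]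
  set b : ℝ → Fin n → ℂ := fun t i =>
    (Ici (0 : ℝ)).indicator (B i) t * ((Real.exp (-(ε * t)) : ℝ) : ℂ) with hb
  have hbB : ∀ t i, b t i * ((Real.exp (ε * t) : ℝ) : ℂ) = (Ici (0 : ℝ)).indicator (B i) t := by
    intro t i
    rw [hb]
    simp only
    rw [mul_assoc, hexp, mul_one]
  refine ⟨b, ?_, ?_, ?_⟩
  · intro i
    have h0 := (hBint i).indicator (measurableSet_Ici (a := (0 : ℝ)))
    refine h0.congr (Eventually.of_forall fun t => ?_)
    exact (hbB t i).symm
  · intro t ht
    funext i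
    have hmem : t ∉ Ici (0 : ℝ) := not_le.2 ht
    simp only [hb, indicator_of_notMem hmem, zero_mul, Pi.zero_apply]
  · have hall := ae_all_iff.2 hB
    filter_upwards [hall] with t ht hpos i
    have hmem : t ∈ Ici (0 : ℝ) := hpos.le
    have h1 : ∀ j, (∫ s, k i j s * B j (t - s)) =
        ((Real.exp (ε * t) : ℝ) : ℂ) * ∫ s, g s i j * b (t - s) j := by
      intro j
      rw [← integral_const_mul]
      apply integral_congr_ae
      have h3 : (fun s => B j (t - s)) =ᵐ[volume]
          fun s => (Ici (0 : ℝ)).indicator (B j) (t - s) :=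
        (Measure.measurePreserving_sub_left volume t).quasiMeasurePreserving.ae_eq_comp (hB0 j)
      filter_upwards [h3] with s hs
      rw [hs, ← hbB (t - s) j, hkdef]
      simp only
      have h4 : ((Real.exp (ε * t) : ℝ) : ℂ) =
          ((Real.exp (ε * s) : ℝ) : ℂ) * ((Real.exp (ε * (t - s)) : ℝ) : ℂ) := by
        rw [← Complex.ofReal_mul, ← Real.exp_add]
        congr 2
        ring
      rw [h4]
      ring
    have h2 := ht i
    rw [indicator_of_mem hmem] at h2
    have h5 := hbB t i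
    rw [indicator_of_mem hmem, h2] at h5
    have h6 : ((Real.exp (ε * t) : ℝ) : ℂ) ≠ 0 := by
      exact_mod_cast (Real.exp_pos _).ne'
    have h7 : b t i * ((Real.exp (ε * t) : ℝ) : ℂ) =
        (r t i - ∑ j, ∫ s, g s i j * b (t - s) j) * ((Real.exp (ε * t) : ℝ) : ℂ) := by
      rw [h5, sub_mul, Finset.sum_mul]
      congr 1
      apply Finset.sum_congr rfl
      intro j _
      rw [h1 j]
      ring
    have h8 := mul_right_cancel₀ h6 h7
    rw [h8]
    ring

end Pool.Agent.H466R3.SFSm
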