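import Pool.Agent.H866R4.VD.Stmts

/-! MP_c4704f_co: task TaskBlow (Ramsey theorem for blow-ups) -/

set_option autoImplicit false

open Finset

namespace Pool.Agent.H466R3.VDBlow

open Pool.Agent.H866R4.VD

/-- bipartite Ramsey -/
theorem bip (M : ℕ) : ∃ m : ℕ, M ≤ m ∧ ∀ (α β : Type) [DecidableEq α] [DecidableEq β]
    (A : Finset α) (B : Finset β) (g : α → β → Bool), m ≤ A.card → m ≤ B.card →
    ∃ A1 : Finset α, A1 ⊆ A ∧ ∃ B1 : Finset β, B1 ⊆ B ∧ M ≤ A1.card ∧ M ≤ B1.card ∧
      ∃ c : Bool, ∀ a ∈ A1, ∀ b ∈ B1, g a b = c := by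
  refine ⟨2 ^ (2 * M) * M + 2 * M, by omega, ?_⟩
  intro α β _ _ A B g hA hB
  obtain ⟨A', hA', hcard⟩ := Finset.exists_subset_card_eq (show 2 * M ≤ A.card by omega)
  have hmaps : ∀ b ∈ B, A'.filter (fun a => g a b = true) ∈ A'.powerset := by
    intro b _
    exact Finset.mem_powerset.2 (Finset.filter_subset _ _)
  obtain ⟨P, hP, hPc⟩ := Finset.exists_le_card_fiber_of_mul_le_card_of_maps_to hmaps
    ⟨∅, Finset.empty_mem_powerset _⟩
    (show A'.powerset.card * M ≤ B.card by rw [Finset.card_powerset, hcard]; omega)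
  rw [Finset.mem_powerset] at hP
  have hsum : (A' \ P).card + P.card = A'.card := Finset.card_sdiff_add_card_eq_card hP
  by_cases hM : M ≤ P.card
  · refine ⟨P, hP.trans hA', B.filter (fun b => A'.filter (fun a => g a b = true) = P),
      Finset.filter_subset _ _, hM, hPc, true, ?_⟩
    intro a ha b hb
    rw [Finset.mem_filter] at hb
    rw [← hb.2, Finset.mem_filter] at ha
    exact ha.2
  · refine ⟨A' \ P, Finset.sdiff_subset.trans hA',
      B.filter (fun b => A'.filter (fun a => g a b = true) = P),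
      Finset.filter_subset _ _, by omega, hPc, false, ?_⟩
    intro a ha b hb
    rw [Finset.mem_filter] at hb
    rw [Finset.mem_sdiff, ← hb.2, Finset.mem_filter] at ha
    rcases Bool.eq_false_or_eq_true (g a b) with h | h
    · exact absurd ⟨ha.1, h⟩ ha.2
    · exact h

theorem multi (N : ℕ) (L : Finset (Fin N × Fin N)) : (∀ p ∈ L, p.1 ≠ p.2) → ∀ M : ℕ,
    ∃ m : ℕ, M ≤ m ∧ ∀ (α : Type) [DecidableEq α] (col : (Fin N × α) → (Fin N × α) → Bool)
      (S : Fin N → Finset α), (∀ i, m ≤ (S i).card) →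
      ∃ S' : Fin N → Finset α, (∀ i, S' i ⊆ S i) ∧ (∀ i, M ≤ (S' i).card) ∧
        ∀ p ∈ L, ∃ c : Bool, ∀ a ∈ S' p.1, ∀ b ∈ S' p.2, col (p.1, a) (p.2, b) = c := by
  induction L using Finset.induction_on with
  | empty =>
    intro _ M
    exact ⟨M, le_refl _, fun α _ col S hS => ⟨S, fun i => subset_rfl, hS, by simp⟩⟩
  | insert p L hp ih =>
    intro hne M
    obtain ⟨m1, hm1, hbip⟩ := bip M
    obtain ⟨m, hm, hmul⟩ := ih (fun q hq => hne q (Finset.mem_insert_of_mem hq)) m1
    refine ⟨m, hm1.trans hm, ?_⟩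
    intro α _ col S hS
    obtain ⟨S1, hS1, hc1, hL1⟩ := hmul α col S hS
    obtain ⟨A1, hA1, B1, hB1, hMA, hMB, c, hc⟩ := hbip α α (S1 p.1) (S1 p.2)
      (fun a b => col (p.1, a) (p.2, b)) (hc1 _) (hc1 _)
    have hpne : p.1 ≠ p.2 := hne p (Finset.mem_insert_self _ _)
    have hsub : ∀ i, (if i = p.1 then A1 else if i = p.2 then B1 else S1 i) ⊆ S1 i := by
      intro i
      split_ifs with h1 h2
      · rw [h1]; exact hA1
      · rw [h2]; exact hB1
      · exact subset_rfl
    refine ⟨fun i => if i = p.1 then A1 else if i = p.2 then B1 else S1 i,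
      fun i => (hsub i).trans (hS1 i), ?_, ?_⟩
    · intro i
      simp only
      split_ifs with h1 h2
      · exact hMA
      · exact hMB
      · exact hm1.trans (hc1 i)
    · intro q hq
      rcases Finset.mem_insert.1 hq with rfl | hq
      · refine ⟨c, ?_⟩
        intro a ha b hb
        simp only [if_true] at ha
        simp only [if_neg hpne.symm, if_true] at hb
        exact hc a ha b hb
      · obtain ⟨c', hc'⟩ := hL1 q hq
        exact ⟨c', fun a ha b hb => hc' a (hsub _ ha) b (hsub _ hb)⟩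

theorem taskBlow : TaskBlow := by
  intro N M
  obtain ⟨m, _, hm⟩ := multi N (Finset.univ.filter fun p : Fin N × Fin N => p.1 ≠ p.2)
    (fun p hp => (Finset.mem_filter.1 hp).2) M
  refine ⟨m, ?_⟩
  intro col hcol
  obtain ⟨S', -, hS', hL⟩ := hm (Fin m) col (fun _ => Finset.univ) (fun i => by simp)
  have hL' : ∀ i j : Fin N, ∃ c : Bool, i ≠ j → ∀ a ∈ S' i, ∀ b ∈ S' j, col (i, a) (j, b) = c := by
    intro i j
    by_cases hij : i = j
    · exact ⟨true, fun h => absurd hij h⟩
    · obtain ⟨c, hc⟩ := hL (i, j) (Finset.mem_filter.2 ⟨Finset.mem_univ _, hij⟩)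
      exact ⟨c, fun _ => hc⟩
  choose c0 hc0 using hL'
  choose S hSs hSc using fun i => Finset.exists_subset_card_eq (hS' i)
  refine ⟨S, fun i j => if i < j then c0 i j else c0 j i, ?_, hSc, ?_⟩
  · intro i j
    rcases lt_trichotomy i j with h | h | h
    · simp only [if_pos h, if_neg (not_lt.2 h.le)]
    · rw [h]
    · simp only [if_pos h, if_neg (not_lt.2 h.le)]
  · intro i j hij a ha b hb
    simp only
    split_ifs with h
    · exact hc0 i j hij a (hSs i ha) b (hSs j hb)
    · rw [hcol]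
      exact hc0 j i hij.symm b (hSs j hb) a (hSs i ha)

end Pool.Agent.H466R3.VDBlow
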